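import Mathlib
import Pool.Agent.R494.SPL4
import Pool.Agent.N719.SP.MainU
import Pool.Agent.N233.GM.Law2

/-! `x² + y² + z² + 4w²` with `2 ^ x + 2 ^ y + 2 ^ z + 1` chosen, growing sieve (helper949; the proof follows
Pool.Agent.N233.GM.Law2 of helper233 and Pool.Agent.R494.SPL4, with the sets of Pool.Agent.N719.SP.MainU). -/

set_option autoImplicit false
set_option linter.unusedSectionVars false

namespace Pool.Agent.U949.GS

open Filter Asymptotics MeasureTheory Pool.Agent.R494.SPL Finset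
open Pool.Agent.R528.RM Pool.Agent.N233.GM
open scoped Topology

/-- the exceptional primes -/
def Exceptional (n q : ℕ) : Prop :=
  (∃ l : ℕ, l.Prime ∧ 5 ≤ l ∧ l ^ 2 ∣ orderOf (2 : ZMod q) ∧
    ((n % 4 = 1 ∧ l % 4 = 3 ∧ (l : ℤ) ∣ 9 * n - 8) ∨ (n % 4 = 3 ∧ l % 3 = 2 ∧ (l : ℤ) ∣ 3 * n - 8))) ∨
  ((n % 4 = 1 ∧ n % 7 = 4 ∧ q = 113) ∨ (n % 4 = 3 ∧ n % 5 = 1 ∧ q = 41))

/-- `n` has no exceptional primes in the range of the sieve `z` -/
def Clear2 (z : ℕ → ℕ) (n : ℕ) : Prop :=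
  ∀ v ∈ quad3 n, ∀ q : ℕ, q.Prime → q ≠ 2 → q ≤ z (val3 v) → ¬ Exceptional n q

/-- the sets without small prime factors -/
def Sets (n : ℕ) (y m : ℝ) : Prop :=
  ∃ S ⊆ quad3 n, m ≤ (S.card : ℝ) ∧ ∀ v ∈ S, ∀ q : ℕ, q.Prime → q ∣ val3 v → (q : ℝ) ≤ y →
    q ≠ 2 ∧ Exceptional n q

lemma setsA (ε : ℝ) (hε : 0 < ε) : ∃ c : ℝ, 0 < c ∧ ∃ n0 : ℕ, ∀ n : ℕ, n0 ≤ n → Odd n →
    Sets n (c * (Real.log n * Real.log (Real.log n) / Real.log (Real.log (Real.log n)))) ((n : ℝ) ^ (1 - ε)) := by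
  obtain ⟨c, hc, n0, h⟩ := Pool.Agent.N719.SP.mainAU ε hε
  refine ⟨c, hc, n0, fun n hn hno => ?_⟩
  obtain ⟨S, h1, h2⟩ := h n hn hno
  refine ⟨S, ?_, h1, ?_⟩
  · rintro ⟨x, y, z, w⟩ hv
    exact mem_quad3.2 (h2 x y z w hv).1
  · rintro ⟨x, y, z, w⟩ hv q hq hqd hqy
    obtain ⟨g1, g2⟩ := (h2 x y z w hv).2 q hq hqd hqy
    exact ⟨g1, Pool.Agent.N719.SP.exc_finalU n q g2⟩

lemma setsB (ε : ℝ) (hε : 0 < ε) : ∃ c : ℝ, 0 < c ∧ ∃ n0 : ℕ, ∀ n : ℕ, n0 ≤ n → Odd n →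
    (∀ l : ℕ, l.Prime → c * Real.log n < l → (l : ℝ) ≤ (Real.log n) ^ 2 → ¬ l ^ 2 ∣ n) →
    Sets n (c * Real.log n ^ 2) ((n : ℝ) ^ (1 - ε)) := by
  obtain ⟨c, hc, n0, h⟩ := Pool.Agent.N719.SP.mainBU ε hε
  refine ⟨c, hc, n0, fun n hn hno hl => ?_⟩
  obtain ⟨S, h1, h2⟩ := h n hn hno hl
  refine ⟨S, ?_, h1, ?_⟩
  · rintro ⟨x, y, z, w⟩ hv
    exact mem_quad3.2 (h2 x y z w hv).1
  · rintro ⟨x, y, z, w⟩ hv q hq hqd hqy
    obtain ⟨g1, g2⟩ := (h2 x y z w hv).2 q hq hqd hqy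
    exact ⟨g1, Pool.Agent.N719.SP.exc_finalU n q g2⟩

/-- many large rough values give a large expected number -/
lemma low_E3 (ε : ℝ) (hε : 0 < ε) (hε1 : ε ≤ 1 / 2) : ∃ n0 : ℕ, ∀ n : ℕ, n0 ≤ n → ∀ y : ℝ,
    Sets n y ((n : ℝ) ^ (1 - ε / 2)) → ∀ z : ℕ → ℕ, Clear2 z n →
    (∀ v ∈ quad3 n, n ≤ val3 v → (z (val3 v) : ℝ) ≤ y) →
    2 * (n : ℝ) ^ (1 / 2 - ε) ≤ ∑ v ∈ quad3 n, rho1 z (val3 v) := by
  classical
  have e2 : ∀ᶠ n : ℕ in atTop, 16 ≤ (n : ℝ) ^ (ε / 2) :=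
    ((tendsto_rpow_atTop (by positivity)).comp tendsto_natCast_atTop_atTop).eventually_ge_atTop _
  have e3 := (isLittleO_log_rpow_rpow_atTop (3 : ℝ) (show (0 : ℝ) < 1 / 4 by norm_num)).bound
    (show (0 : ℝ) < 1 / 54 by norm_num)
  apply eventually_atTop.1
  filter_upwards [e2, tendsto_natCast_atTop_atTop.eventually e3, log_cube, eventually_ge_atTop 1] with n h2 h3 h4 h5
  intro y hS z hclear hz
  obtain ⟨S, hsub, hS1, hS2⟩ := hS
  have hn1 : (1 : ℝ) ≤ n := by exact_mod_cast h5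
  have hn0 : (0 : ℝ) < n := by linarith
  have hnh : 1 ≤ (n : ℝ) ^ (1 / 2 : ℝ) := Real.one_le_rpow hn1 (by norm_num)
  have hlog : 0 ≤ Real.log (n : ℝ) := Real.log_nonneg hn1
  rw [Real.norm_eq_abs, Real.norm_eq_abs, abs_of_nonneg (Real.rpow_nonneg hlog _),
    abs_of_nonneg (Real.rpow_nonneg hn0.le _)] at h3
  have e5 : Real.log n ^ (3 : ℝ) = Real.log n ^ (3 : ℕ) := by
    rw [← Real.rpow_natCast]; norm_num
  rw [e5] at h3
  have e6 : (n : ℝ) ^ (1 / 4 : ℝ) ≤ (n : ℝ) ^ (1 - ε / 2) :=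
    Real.rpow_le_rpow_of_exponent_le hn1 (by linarith)
  set T := S.filter (fun v => ¬ val3 v < n) with hT
  have hcard : (n : ℝ) ^ (1 - ε / 2) / 2 ≤ (T.card : ℝ) := by
    have g1 : (S.filter (fun v => val3 v < n)).card + T.card = S.card :=
      Finset.card_filter_add_card_filter_not (s := S) (fun v => val3 v < n)
    have g2 : (S.filter (fun v => val3 v < n)).card ≤ (Nat.log 2 n + 1) ^ 3 :=
      (card_le_card (filter_subset_filter _ hsub)).trans (small3 n)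
    have g3 : ((S.filter (fun v => val3 v < n)).card : ℝ) ≤ 27 * Real.log n ^ 3 :=
      le_trans (by exact_mod_cast g2) h4.1
    have g4 : ((S.filter (fun v => val3 v < n)).card : ℝ) + (T.card : ℝ) = (S.card : ℝ) := by exact_mod_cast g1
    linarith
  have h6 : ∀ v ∈ T, 1 / (4 * (n : ℝ) ^ (1 / 2 : ℝ)) ≤ rho1 z (val3 v) := by
    intro v hv
    obtain ⟨hvS, hvn⟩ := mem_filter.1 hv
    rw [not_lt] at hvn
    have hvq := hsub hvS
    obtain ⟨g1, g2⟩ := log_val3 h5 hvq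
    have hR : Rough z (val3 v) := by
      intro q hq hqz hqd
      have k1 : (q : ℝ) ≤ y := le_trans (by exact_mod_cast hqz) (hz v hvq hvn)
      obtain ⟨k2, k3⟩ := hS2 v hvS q hq hqd k1
      exact hclear v hvq q hq k2 hqz k3
    have g0 : 0 < Real.log (val3 v : ℝ) := by linarith
    unfold rho1
    rw [if_pos hR]
    apply le_min
    · rw [div_le_one (by linarith)]
      linarith
    · have := W_ge (z (val3 v))
      gcongr
  have hTsub : T ⊆ quad3 n := (filter_subset _ _).trans hsub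
  calc 2 * (n : ℝ) ^ (1 / 2 - ε) = 16 * ((n : ℝ) ^ (1 / 2 - ε) / 8) := by ring
    _ ≤ (n : ℝ) ^ (ε / 2) * ((n : ℝ) ^ (1 / 2 - ε) / 8) := by gcongr
    _ = (n : ℝ) ^ (1 - ε / 2) / 2 * (1 / (4 * (n : ℝ) ^ (1 / 2 : ℝ))) := by
        have e1 : (n : ℝ) ^ (1 - ε / 2) = (n : ℝ) ^ (ε / 2) * (n : ℝ) ^ (1 / 2 - ε) * (n : ℝ) ^ (1 / 2 : ℝ) := by
          rw [← Real.rpow_add hn0, ← Real.rpow_add hn0]
          congr 1
          ring
        rw [e1]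
        field_simp
        ring
    _ ≤ T.card * (1 / (4 * (n : ℝ) ^ (1 / 2 : ℝ))) := by gcongr
    _ = ∑ _v ∈ T, 1 / (4 * (n : ℝ) ^ (1 / 2 : ℝ)) := by rw [Finset.sum_const, nsmul_eq_mul]
    _ ≤ ∑ v ∈ T, rho1 z (val3 v) := Finset.sum_le_sum h6
    _ ≤ _ := Finset.sum_le_sum_of_subset_of_nonneg hTsub fun v _ _ => (rho1_bounds z _).1

section

variable {Ω : Type} {m0 : MeasurableSpace Ω} {μ : Measure Ω} [IsProbabilityMeasure μ]
  {ℱ : Filtration ℕ m0} {A : ℕ → Set Ω}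

theorem law3g (hA : ∀ n, MeasurableSet[ℱ n] (A n)) (z : ℕ → ℕ)
    (hprof : ∀ᵐ ω ∂μ, ∀ ε : ℝ, 0 < ε → ∀ᶠ n : ℕ in atTop,
      |dens μ ℱ A n ω - rho1 z (n + 1)| ≤ ε * rho1 z (n + 1))
    (G : ℕ → Prop)
    (hlow : ∀ᶠ n : ℕ in atTop, G n → 2 * (n : ℝ) ^ (1 / 2 - 1 / 4 : ℝ) ≤ ∑ v ∈ quad3 n, rho1 z (val3 v)) :
    ∀ᵐ ω ∂μ, ∀ η : ℝ, 0 < η → ∀ᶠ n : ℕ in atTop, G n →
      |∑ v ∈ quad3 n, In A (val3 v) ω - ∑ v ∈ quad3 n, rho1 z (val3 v)| ≤
        η * ∑ v ∈ quad3 n, rho1 z (val3 v) := by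
  classical
  have h := weighted_law (μ := μ) (ℱ := ℱ) (A := A) hA (fun n => (rho1_bounds z n).1) hprof
    (fun n => (quad3 n).filter (fun v => ¬ val3 v < n)) val3 (fun _ => 12) 1
    (by
      filter_upwards [eventually_ge_atTop 12] with x hx
      rw [pow_one]
      exact hx)
    (Eventually.of_forall fun n P => (card_le_card (filter_subset_filter _ (filter_subset _ _))).trans (fibre3 n P))
    id tendsto_id
    (Eventually.of_forall fun n v hv => not_lt.1 (mem_filter.1 hv).2)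
  filter_upwards [h] with ω hω η hη
  obtain ⟨K, hK0, hK⟩ := hω (η / 2) (by positivity)
  have e3 := (isLittleO_log_rpow_rpow_atTop (3 : ℝ) (show (0 : ℝ) < 1 / 4 by norm_num)).bound
    (show (0 : ℝ) < η / (12 * K + 27) by positivity)
  filter_upwards [hK, log_cube, tendsto_natCast_atTop_atTop.eventually e3, hlow,
    eventually_ge_atTop 1] with n h1 h2 h3 hl h4 hG
  have hl := hl hG
  obtain ⟨l1, l2⟩ := h2
  have hn1 : (1 : ℝ) ≤ n := by exact_mod_cast h4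
  have hn0 : (0 : ℝ) < n := by linarith
  have hlog : 0 ≤ Real.log (n : ℝ) := Real.log_nonneg hn1
  rw [Real.norm_eq_abs, Real.norm_eq_abs, abs_of_nonneg (Real.rpow_nonneg hlog _),
    abs_of_nonneg (Real.rpow_nonneg hn0.le _)] at h3
  have e5 : Real.log n ^ (3 : ℝ) = Real.log n ^ (3 : ℕ) := by
    rw [← Real.rpow_natCast]; norm_num
  rw [e5] at h3
  have h3' : (12 * K + 27) * Real.log n ^ 3 ≤ η * (n : ℝ) ^ (1 / 4 : ℝ) := by
    calc (12 * K + 27) * Real.log n ^ 3 ≤ (12 * K + 27) * (η / (12 * K + 27) * (n : ℝ) ^ (1 / 4 : ℝ)) := by gcongr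
      _ = η * (n : ℝ) ^ (1 / 4 : ℝ) := by field_simp
  have hl' : 2 * (n : ℝ) ^ (1 / 4 : ℝ) ≤ ∑ v ∈ quad3 n, rho1 z (val3 v) := by
    have : (1 / 2 - 1 / 4 : ℝ) = 1 / 4 := by norm_num
    rwa [this] at hl
  have hsplit : ∀ f : ℕ × ℕ × ℕ × ℕ → ℝ, ∑ v ∈ quad3 n, f v =
      ∑ v ∈ (quad3 n).filter (fun v => val3 v < n), f v + ∑ v ∈ (quad3 n).filter (fun v => ¬ val3 v < n), f v :=
    fun f => (sum_filter_add_sum_filter_not _ _ _).symm
  have hcard : (((quad3 n).filter (fun v => val3 v < n)).card : ℝ) ≤ 27 * Real.log n ^ 3 :=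
    le_trans (by exact_mod_cast small3 n) l1
  have s1 : 0 ≤ ∑ v ∈ (quad3 n).filter (fun v => val3 v < n), In A (val3 v) ω :=
    sum_nonneg fun v _ => In_nonneg _ _
  have s2 : ∑ v ∈ (quad3 n).filter (fun v => val3 v < n), In A (val3 v) ω ≤ 27 * Real.log n ^ 3 := by
    refine le_trans ?_ hcard
    refine (sum_le_card_nsmul _ _ 1 fun v _ => In_le _ _).trans ?_
    simp
  have s3 : 0 ≤ ∑ v ∈ (quad3 n).filter (fun v => val3 v < n), rho1 z (val3 v) :=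
    sum_nonneg fun v _ => (rho1_bounds z _).1
  have s4 : ∑ v ∈ (quad3 n).filter (fun v => val3 v < n), rho1 z (val3 v) ≤ 27 * Real.log n ^ 3 := by
    refine le_trans ?_ hcard
    refine (sum_le_card_nsmul _ _ 1 fun v _ => (rho1_bounds z _).2).trans ?_
    simp
  have s5 : K * ((12 : ℕ) * Real.log n) ≤ 12 * K * Real.log n ^ 3 := by
    push_cast
    nlinarith
  have s7 : ∑ v ∈ (quad3 n).filter (fun v => ¬ val3 v < n), rho1 z (val3 v) ≤ ∑ v ∈ quad3 n, rho1 z (val3 v) := by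
    rw [hsplit]
    linarith
  have s8 : η / 2 * ∑ v ∈ (quad3 n).filter (fun v => ¬ val3 v < n), rho1 z (val3 v) ≤
      η / 2 * ∑ v ∈ quad3 n, rho1 z (val3 v) := mul_le_mul_of_nonneg_left s7 (by positivity)
  have s9 : η * (n : ℝ) ^ (1 / 4 : ℝ) ≤ η / 2 * ∑ v ∈ quad3 n, rho1 z (val3 v) := by
    calc η * (n : ℝ) ^ (1 / 4 : ℝ) = η / 2 * (2 * (n : ℝ) ^ (1 / 4 : ℝ)) := by ring
      _ ≤ _ := by gcongr
  have s10 : η * ∑ v ∈ quad3 n, rho1 z (val3 v) = η / 2 * ∑ v ∈ quad3 n, rho1 z (val3 v) +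
      η / 2 * ∑ v ∈ quad3 n, rho1 z (val3 v) := by ring
  rw [s10]
  have t3 : ∑ v ∈ quad3 n, In A (val3 v) ω - ∑ v ∈ quad3 n, rho1 z (val3 v) =
      (∑ v ∈ (quad3 n).filter (fun v => ¬ val3 v < n), In A (val3 v) ω -
        ∑ v ∈ (quad3 n).filter (fun v => ¬ val3 v < n), rho1 z (val3 v)) +
      (∑ v ∈ (quad3 n).filter (fun v => val3 v < n), In A (val3 v) ω -
        ∑ v ∈ (quad3 n).filter (fun v => val3 v < n), rho1 z (val3 v)) := by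
    rw [hsplit, hsplit (fun v => rho1 z (val3 v))]
    ring
  rw [t3]
  obtain ⟨t1, t2⟩ := abs_le.1 h1
  have s11 : (12 * K + 27) * Real.log n ^ 3 = 12 * K * Real.log n ^ 3 + 27 * Real.log n ^ 3 := by ring
  rw [s11] at h3'
  clear hsplit t3 s10 h3 l1 l2 hcard h1 s11 s7
  generalize ∑ v ∈ (quad3 n).filter (fun v => val3 v < n), In A (val3 v) ω = a1 at *
  generalize ∑ v ∈ (quad3 n).filter (fun v => ¬ val3 v < n), In A (val3 v) ω = a2 at *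
  generalize ∑ v ∈ (quad3 n).filter (fun v => val3 v < n), rho1 z (val3 v) = b1 at *
  generalize ∑ v ∈ (quad3 n).filter (fun v => ¬ val3 v < n), rho1 z (val3 v) = b2 at *
  generalize ∑ v ∈ quad3 n, rho1 z (val3 v) = b3 at *
  generalize K * ((12 : ℕ) * Real.log n) = a4 at *
  generalize 12 * K * Real.log n ^ 3 = a5 at *
  generalize Real.log n ^ 3 = a6 at *
  generalize η * (n : ℝ) ^ (1 / 4 : ℝ) = a7 at *
  rw [abs_le]
  constructor
  · linarith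
  · linarith

end

end Pool.Agent.U949.GS
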