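import Mathlib
import Pool.Agent.U949.GS.Law3

/-! The ranges of the sieve (helper949). -/

set_option autoImplicit false
set_option linter.unusedSectionVars false

namespace Pool.Agent.U949.GS

open Filter Asymptotics MeasureTheory Pool.Agent.R494.SPL Finset
open Pool.Agent.R528.RM Pool.Agent.N233.GM
open scoped Topology

/-- the range `t log t / log log t` -/
noncomputable def L (t : ℝ) : ℝ := t * Real.log t / Real.log (Real.log t)

lemma id_div_log_mono {x y : ℝ} (hx : 3 ≤ x) (hxy : x ≤ y) : x / Real.log x ≤ y / Real.log y := by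
  have he := Real.exp_one_lt_d9
  have h1 := Real.log_div_self_antitoneOn (show x ∈ {x | Real.exp 1 ≤ x} by
    show Real.exp 1 ≤ x
    linarith) (show y ∈ {x | Real.exp 1 ≤ x} by
    show Real.exp 1 ≤ y
    linarith) hxy
  simp only at h1
  have hlx : 0 < Real.log x := Real.log_pos (by linarith)
  have hly : 0 < Real.log y := Real.log_pos (by linarith)
  rw [div_le_div_iff₀ (by linarith) (by linarith)] at h1
  rw [div_le_div_iff₀ hlx hly]
  linarith

lemma L_mono {s t : ℝ} (hs : 27 ≤ s) (hst : s ≤ t) : L s ≤ L t := by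
  have he := Real.exp_one_lt_d9
  have h3 : 3 ≤ Real.log s := by
    rw [Real.le_log_iff_exp_le (by linarith)]
    have : Real.exp 3 = Real.exp 1 ^ 3 := by rw [← Real.exp_nat_mul]; norm_num
    rw [this]
    have h0 := Real.exp_pos 1
    have h1 : Real.exp 1 ^ 3 ≤ 2.7182818286 ^ 3 := pow_le_pow_left₀ h0.le he.le 3
    have h2 : (2.7182818286 : ℝ) ^ 3 ≤ 27 := by norm_num
    linarith
  have hl : Real.log s ≤ Real.log t := Real.log_le_log (by linarith) hst
  have h1 := id_div_log_mono h3 hl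
  have hls : 0 < Real.log (Real.log s) := Real.log_pos (by linarith)
  have h4 : 0 ≤ Real.log s / Real.log (Real.log s) := by positivity
  unfold L
  rw [mul_div_assoc, mul_div_assoc]
  exact mul_le_mul hst h1 h4 (by linarith)

lemma L_le_sq : ∀ᶠ t : ℝ in atTop, L t ≤ t ^ 2 ∧ 0 ≤ L t := by
  filter_upwards [eventually_ge_atTop 27, (Real.tendsto_log_atTop.comp Real.tendsto_log_atTop).eventually_ge_atTop 1]
    with t h1 h2
  simp only [Function.comp_apply] at h2
  have h3 : 0 ≤ Real.log t := Real.log_nonneg (by linarith)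
  have h4 : Real.log t ≤ t := (Real.log_le_sub_one_of_pos (by linarith)).trans (by linarith)
  unfold L
  constructor
  · rw [div_le_iff₀ (by linarith)]
    have : t * Real.log t ≤ t * t := mul_le_mul_of_nonneg_left h4 (by linarith)
    nlinarith [sq_nonneg t]
  · apply div_nonneg (mul_nonneg (by linarith) h3) (by linarith)

lemma loglog_tendsto : Tendsto (fun m : ℕ => Real.log (Real.log (m : ℝ))) atTop atTop :=
  Real.tendsto_log_atTop.comp (Real.tendsto_log_atTop.comp tendsto_natCast_atTop_atTop)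

/-- double logarithms of the values -/
lemma loglog_val {n : ℕ} (hn : 16 ≤ n) {v : ℕ × ℕ × ℕ × ℕ} (hv : v ∈ quad3 n) :
    0 ≤ Real.log (Real.log (val3 v : ℝ)) ∧ Real.log (Real.log (val3 v : ℝ)) ≤ Real.log n := by
  obtain ⟨g1, g2⟩ := log_val3 (by omega) hv
  have hn0 : (0 : ℝ) < n := by exact_mod_cast (by omega : 0 < n)
  have hn16 : (16 : ℝ) ≤ n := by exact_mod_cast hn
  refine ⟨Real.log_nonneg g1, ?_⟩
  refine (Real.log_le_log (by linarith) g2).trans ?_
  rw [Real.log_mul (by norm_num) (Real.rpow_pos_of_pos hn0 _).ne', Real.log_rpow hn0]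
  have h5 : Real.log 16 ≤ Real.log n := Real.log_le_log (by norm_num) hn16
  have h6 : Real.log 16 = 2 * Real.log 4 := by
    rw [show (16 : ℝ) = 4 ^ 2 by norm_num, Real.log_pow]
    norm_num
  linarith

lemma range_sq (c : ℝ) (hc : 0 < c) (z : ℕ → ℕ)
    (hz : ∀ᶠ m : ℕ in atTop, (z m : ℝ) ≤ c * Real.log (Real.log m) ^ 2) :
    ∀ᶠ n : ℕ in atTop, ∀ v ∈ quad3 n, n ≤ val3 v → (z (val3 v) : ℝ) ≤ c * Real.log n ^ 2 := by
  obtain ⟨m1, hm1⟩ := eventually_atTop.1 hz
  filter_upwards [eventually_ge_atTop m1, eventually_ge_atTop 16] with n h1 h2 v hv hvn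
  obtain ⟨g1, g2⟩ := loglog_val h2 hv
  have g3 := hm1 (val3 v) (by omega)
  refine g3.trans ?_
  gcongr

lemma range_L (c : ℝ) (hc : 0 < c) (z : ℕ → ℕ)
    (hz : ∀ᶠ m : ℕ in atTop, (z m : ℝ) ≤ c * L (Real.log (Real.log m))) :
    ∀ᶠ n : ℕ in atTop, ∀ v ∈ quad3 n, n ≤ val3 v → (z (val3 v) : ℝ) ≤ c * L (Real.log n) := by
  obtain ⟨m1, hm1⟩ := eventually_atTop.1 hz
  filter_upwards [eventually_ge_atTop m1, eventually_ge_atTop 16, loglog_tendsto.eventually_ge_atTop 27]
    with n h1 h2 h3 v hv hvn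
  obtain ⟨g1, g2⟩ := loglog_val h2 hv
  have g3 := hm1 (val3 v) (by omega)
  have hn16 : (16 : ℝ) ≤ n := by exact_mod_cast h2
  have hvn' : (n : ℝ) ≤ val3 v := by exact_mod_cast hvn
  have hln : 0 < Real.log (n : ℝ) := Real.log_pos (by linarith)
  have g4 : Real.log (Real.log (n : ℝ)) ≤ Real.log (Real.log (val3 v : ℝ)) :=
    Real.log_le_log hln (Real.log_le_log (by linarith) hvn')
  refine g3.trans ?_
  have := L_mono (h3.trans g4) g2
  gcongr

lemma L_to_sq (c : ℝ) (hc : 0 < c) (z : ℕ → ℕ)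
    (hz : ∀ᶠ m : ℕ in atTop, (z m : ℝ) ≤ c * L (Real.log (Real.log m))) :
    ∀ᶠ m : ℕ in atTop, (z m : ℝ) ≤ c * Real.log (Real.log m) ^ 2 := by
  filter_upwards [hz, loglog_tendsto.eventually L_le_sq] with m h1 h2
  refine h1.trans ?_
  have := h2.1
  gcongr

/-- `n` without certain small prime factors of `9n - 8` or `3n - 8` -/
def Good (n : ℕ) : Prop :=
  (n % 4 = 1 → ∀ l : ℕ, l.Prime → l % 4 = 3 → (l : ℝ) ≤ Real.log n → ¬ (l : ℤ) ∣ 9 * n - 8) ∧
  (n % 4 = 3 → ∀ l : ℕ, l.Prime → 5 ≤ l → l % 3 = 2 → (l : ℝ) ≤ Real.log n → ¬ (l : ℤ) ∣ 3 * n - 8)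

lemma order_dvd {q : ℕ} (hq : q.Prime) (hq2 : q ≠ 2) : orderOf (2 : ZMod q) ∣ q - 1 := by
  have : Fact q.Prime := ⟨hq⟩
  apply ZMod.orderOf_dvd_card_sub_one
  intro h
  have h1 : ((2 : ℕ) : ZMod q) = 0 := by exact_mod_cast h
  rw [ZMod.natCast_eq_zero_iff] at h1
  have h2 := (Nat.prime_dvd_prime_iff_eq hq Nat.prime_two).1 h1
  exact hq2 h2

/-- large good numbers are clear -/
lemma good_clear (z : ℕ → ℕ) (hz : ∀ᶠ m : ℕ in atTop, (z m : ℝ) ≤ Real.log (Real.log m) ^ 2) :
    ∀ᶠ n : ℕ in atTop, Good n → ∀ v ∈ quad3 n, ∀ q : ℕ, q.Prime → q ≤ z (val3 v) → q ≠ 2 → ¬ Exceptional n q := by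
  obtain ⟨m1, hm1⟩ := eventually_atTop.1 hz
  set Z : ℕ := ∑ m ∈ range m1, z m with hZ
  have hlog : Tendsto (fun n : ℕ => Real.log (n : ℝ)) atTop atTop :=
    Real.tendsto_log_atTop.comp tendsto_natCast_atTop_atTop
  filter_upwards [eventually_ge_atTop 16, hlog.eventually_ge_atTop (Z : ℝ), hlog.eventually_ge_atTop 113]
    with n h2 h3 h4 hgood v hv q hq hqz hq2 hexc
  have hq' : (q : ℝ) ≤ Real.log n ^ 2 := by
    by_cases hvm : val3 v < m1
    · have g1 : z (val3 v) ≤ Z := Finset.single_le_sum (f := z) (fun _ _ => Nat.zero_le _) (mem_range.2 hvm)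
      have g2 : (q : ℝ) ≤ Z := by exact_mod_cast hqz.trans g1
      nlinarith
    · obtain ⟨g1, g2⟩ := loglog_val h2 hv
      have g3 := hm1 (val3 v) (by omega)
      have g4 : (q : ℝ) ≤ z (val3 v) := by exact_mod_cast hqz
      have g5 : Real.log (Real.log (val3 v : ℝ)) ^ 2 ≤ Real.log n ^ 2 := pow_le_pow_left₀ g1 g2 2
      linarith
  have hn0 : 0 ≤ Real.log (n : ℝ) := by linarith
  rcases hexc with ⟨l, hl, hl5, hlo, hcase⟩ | ⟨h41, h7, -⟩ | ⟨h43, h5, -⟩
  · have k1 : l ^ 2 ∣ q - 1 := hlo.trans (order_dvd hq hq2)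
    have k2 : l ^ 2 ≤ q - 1 := Nat.le_of_dvd (by have := hq.two_le; omega) k1
    have k3 : (l : ℝ) ^ 2 ≤ Real.log n ^ 2 := by
      have : l ^ 2 ≤ q := by omega
      have : (l : ℝ) ^ 2 ≤ q := by exact_mod_cast this
      linarith
    have k4 : (l : ℝ) ≤ Real.log n := abs_le_of_sq_le_sq' k3 hn0 |>.2
    rcases hcase with ⟨c1, c2, c3⟩ | ⟨c1, c2, c3⟩
    · exact hgood.1 c1 l hl c2 k4 c3
    · exact hgood.2 c1 l hl hl5 c2 k4 c3
  · refine hgood.1 h41 7 (by norm_num) (by norm_num) (by push_cast; linarith) ?_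
    push_cast
    omega
  · refine hgood.2 h43 5 (by norm_num) (by norm_num) (by norm_num) (by push_cast; linarith) ?_
    push_cast
    omega

/-- exceptional primes are at least `41`; those up to `100` occur only for `n = 11 mod 20` -/
lemma exc_small {n q : ℕ} (hq : q.Prime) (hq2 : q ≠ 2) (h : Exceptional n q) (hq100 : q ≤ 100) :
    q = 41 ∧ n % 20 = 11 := by
  rcases h with ⟨l, hl, hl5, hlo, hcase⟩ | ⟨h41, h7, h⟩ | ⟨h43, h5, h⟩
  · exfalso
    have k1 : l ^ 2 ∣ q - 1 := hlo.trans (order_dvd hq hq2)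
    have hq1 : 0 < q - 1 := by have := hq.two_le; omega
    have k2 : l ^ 2 ≤ q - 1 := Nat.le_of_dvd hq1 k1
    have k2' : l ^ 2 ≤ 99 := by omega
    have k3 : l < 10 := by nlinarith
    interval_cases l
    · obtain ⟨k, hk⟩ := k1
      have : q = 25 * k + 1 := by omega
      have hk3 : k ≤ 3 := by omega
      interval_cases k
      · omega
      · subst this; norm_num at hq
      · subst this; norm_num at hq
      · subst this; norm_num at hq
    · norm_num at hl
    · obtain ⟨k, hk⟩ := k1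
      have : q = 49 * k + 1 := by omega
      have hk3 : k ≤ 2 := by omega
      interval_cases k
      · omega
      · subst this; norm_num at hq
      · subst this; norm_num at hq
    · norm_num at hl
    · norm_num at hl
  · omega
  · exact ⟨h, by omega⟩

end Pool.Agent.U949.GS
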